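import Pool.Agent.V11300.BB.Main

/-!
# MP_56f6b7_co, Q1 (negative answer)

There is a normalised `BH(4, 16)` which is row balanced and column balanced but is not a
generalised Hadamard matrix `GH(4, 4)` over the group of fourth roots of unity.
-/

namespace Pool.Agent.Results.MP_56f6b7_co.BalancedNotGH

open Pool.Agent.V11300.BB Finset

theorem result :
    (∃ H : Matrix (Fin 16) (Fin 16) ℂ,
      IsBH 4 16 H ∧ Normalised H ∧ RowBalanced 4 H ∧ ColBalanced 4 H ∧ ¬ IsGH 4 16 H) ∧
    ¬ (∀ w v : ℕ, 2 ≤ w → 1 ≤ v → w ∣ v → ∀ H : Matrix (Fin v) (Fin v) ℂ,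
      IsBH w v H → Normalised H → RowBalanced w H → ColBalanced w H → IsGH w v H) := by
  refine ⟨⟨H, H_BH, H_norm, H_row, H_col, H_not_GH⟩, fun h => ?_⟩
  exact H_not_GH (h 4 16 (by norm_num) (by norm_num) (by norm_num) H H_BH H_norm H_row H_col)

end Pool.Agent.Results.MP_56f6b7_co.BalancedNotGH
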